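import Mathlib
import Pool.Agent.W533.LP.Stm

/-!
Part LP-CPL: monotone coupling of the stationary systems, by quantiles.
-/

open MeasureTheory ProbabilityTheory Set

namespace Pool.Agent.W335.LP

open Pool.Agent.W533.LP

/-- quantile function of the geometric law -/
noncomputable def gq (p u : ℝ) : ℕ := sInf {k : ℕ | p ^ (k + 1) < u}

lemma gq_nonempty {p u : ℝ} (h0 : 0 ≤ p) (h1 : p < 1) (hu : 0 < u) :
    {k : ℕ | p ^ (k + 1) < u}.Nonempty := by
  obtain ⟨n, hn⟩ := exists_pow_lt_of_lt_one hu h1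
  refine ⟨n, ?_⟩
  show p ^ (n + 1) < u
  calc p ^ (n + 1) ≤ p ^ n := pow_le_pow_of_le_one h0 h1.le (Nat.le_succ n)
    _ < u := hn

lemma gq_spec {p u : ℝ} (h0 : 0 ≤ p) (h1 : p < 1) (hu : 0 < u) : p ^ (gq p u + 1) < u :=
  Nat.sInf_mem (gq_nonempty h0 h1 hu)

lemma gq_le {p u : ℝ} {k : ℕ} (h : p ^ (k + 1) < u) : gq p u ≤ k := Nat.sInf_le h

lemma gq_eq_iff {p u : ℝ} (h0 : 0 ≤ p) (h1 : p < 1) (hu : 0 < u) (hu1 : u ≤ 1) (k : ℕ) :
    gq p u = k ↔ p ^ (k + 1) < u ∧ u ≤ p ^ k := by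
  constructor
  · rintro rfl
    refine ⟨gq_spec h0 h1 hu, ?_⟩
    by_contra hcon
    push Not at hcon
    rcases Nat.eq_zero_or_pos (gq p u) with h | h
    · rw [h, pow_zero] at hcon
      exact absurd hu1 (not_le.2 hcon)
    · have h2 : gq p u ≤ gq p u - 1 := by
        apply gq_le
        rwa [Nat.sub_add_cancel h]
      omega
  · rintro ⟨h2, h3⟩
    refine le_antisymm (gq_le h2) ?_
    by_contra hcon
    push Not at hcon
    have h4 : p ^ k ≤ p ^ (gq p u + 1) := pow_le_pow_of_le_one h0 h1.le hcon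
    exact absurd (gq_spec h0 h1 hu) (not_lt.2 (h3.trans h4))

lemma gq_of_nonpos {p u : ℝ} (h0 : 0 ≤ p) (hu : u ≤ 0) : gq p u = 0 := by
  have : {k : ℕ | p ^ (k + 1) < u} = ∅ := by
    ext k
    simp only [mem_ofPred_eq, mem_empty_iff_false, iff_false, not_lt]
    exact hu.trans (pow_nonneg h0 _)
  rw [gq, this, Nat.sInf_empty]

lemma gq_of_one_lt {p u : ℝ} (h1 : p < 1) (hu : 1 < u) : gq p u = 0 := by
  have : gq p u ≤ 0 := gq_le (by rw [zero_add, pow_one]; linarith)
  omega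

lemma gq_mono {p p' u : ℝ} (h0 : 0 ≤ p) (h : p ≤ p') (h1 : p' < 1) : gq p u ≤ gq p' u := by
  rcases le_or_gt u 0 with hu | hu
  · rw [gq_of_nonpos h0 hu]
    exact Nat.zero_le _
  · apply gq_le
    calc p ^ (gq p' u + 1) ≤ p' ^ (gq p' u + 1) := pow_le_pow_left₀ h0 h _
      _ < u := gq_spec (h0.trans h) h1 hu

lemma gq_meas {p : ℝ} (h0 : 0 ≤ p) (h1 : p < 1) : Measurable (gq p) := by
  refine measurable_to_countable' fun k => ?_
  have : gq p ⁻¹' {k} = (Ioc 0 1 ∩ Ioc (p ^ (k + 1)) (p ^ k)) ∪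
      (if k = 0 then (Ioc (0 : ℝ) 1)ᶜ else ∅) := by
    ext u
    by_cases hu : u ∈ Ioc (0 : ℝ) 1
    · have h2 : (u ∈ (if k = 0 then (Ioc (0 : ℝ) 1)ᶜ else ∅)) ↔ False := by
        split_ifs
        · simp only [mem_compl_iff, hu, not_true_eq_false]
        · simp
      rw [mem_union, h2, or_false, mem_inter_iff, mem_preimage, mem_singleton_iff,
        gq_eq_iff h0 h1 hu.1 hu.2, mem_Ioc (a := p ^ (k + 1))]
      exact ⟨fun h => ⟨hu, h⟩, fun h => h.2⟩
    · have h2 : gq p u = 0 := by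
        rcases le_or_gt u 0 with h | h
        · exact gq_of_nonpos h0 h
        · exact gq_of_one_lt h1 (by
            by_contra hcon
            exact hu ⟨h, not_lt.1 hcon⟩)
      rw [mem_union, mem_inter_iff, mem_preimage, mem_singleton_iff, h2]
      by_cases hk : k = 0
      · subst hk
        simp only [if_true, mem_compl_iff, hu, not_false_eq_true, or_true]
      · rw [if_neg hk]
        simp only [mem_empty_iff_false, or_false, hu, false_and, iff_false]
        exact fun h => hk h.symm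
  rw [this]
  refine (measurableSet_Ioc.inter measurableSet_Ioc).union ?_
  split_ifs
  · exact measurableSet_Ioc.compl
  · exact MeasurableSet.empty

/-- the uniform law -/
noncomputable def U : Measure ℝ := volume.restrict (Ioc (0 : ℝ) 1)

instance : IsProbabilityMeasure U := ⟨by simp [U]⟩

lemma U_gq {p : ℝ} (h0 : 0 ≤ p) (h1 : p < 1) (k : ℕ) :
    U.real {u | gq p u = k} = (1 - p) * p ^ k := by
  have hm : MeasurableSet {u | gq p u = k} := gq_meas h0 h1 (measurableSet_singleton k)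
  have h2 : {u | gq p u = k} ∩ Ioc (0 : ℝ) 1 = Ioc (p ^ (k + 1)) (p ^ k) := by
    ext u
    constructor
    · rintro ⟨h3, h4⟩
      exact (gq_eq_iff h0 h1 h4.1 h4.2 k).1 h3
    · intro h3
      have h4 : 0 < u := lt_of_le_of_lt (pow_nonneg h0 _) h3.1
      have h5 : u ≤ 1 := h3.2.trans (pow_le_one₀ h0 h1.le)
      exact ⟨(gq_eq_iff h0 h1 h4 h5 k).2 h3, h4, h5⟩
  rw [Measure.real, U, Measure.restrict_apply hm, h2, Real.volume_Ioc, ENNReal.toReal_ofReal]
  · ring
  · rw [sub_nonneg]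
    exact pow_le_pow_of_le_one h0 h1.le (Nat.le_succ k)

lemma geoFam {ι : Type} (p : ι → ℝ) (hp : ∀ i, 0 ≤ p i ∧ p i < 1) :
    GeoFam (Measure.infinitePi (fun _ : ι => U)) p (fun i ω => gq (p i) (ω i)) where
  prob := inferInstance
  pos := hp
  meas := fun i => (gq_meas (hp i).1 (hp i).2).comp (measurable_pi_apply i)
  indep := iIndepFun_infinitePi (P := fun _ : ι => U) (X := fun i => gq (p i))
    fun i => gq_meas (hp i).1 (hp i).2
  law := by
    intro i k
    have h1 : {ω : ι → ℝ | gq (p i) (ω i) = k} = Function.eval i ⁻¹' {u | gq (p i) u = k} := rfl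
    have h2 := (measurePreserving_eval_infinitePi (fun _ : ι => U) i).measure_preimage
      (gq_meas (hp i).1 (hp i).2 (measurableSet_singleton k)).nullMeasurableSet
    rw [Measure.real, h1]
    have h3 := U_gq (hp i).1 (hp i).2 k
    rw [Measure.real] at h3
    rw [← h3]
    exact congrArg ENNReal.toReal h2

theorem pCouple : PCouple := by
  intro q a a' hq hqa haa ha'
  have ha : 0 < a := hq.trans hqa
  have ha'0 : 0 < a' := lt_of_lt_of_le ha haa
  let ι := ℕ ⊕ ℕ ⊕ (ℕ × ℕ) ⊕ Empty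
  have hp : ∀ b : ℝ, q < b → b < 1 → ∀ i : ι,
      0 ≤ par q b (q / b) (fun _ : Empty => (0 : ℝ)) i ∧
      par q b (q / b) (fun _ : Empty => (0 : ℝ)) i < 1 := by
    intro b hqb hb1 i
    have hb : 0 < b := hq.trans hqb
    rcases i with i | i | i | i
    · exact ⟨hb.le, hb1⟩
    · exact ⟨(div_pos hq hb).le, (div_lt_one hb).2 hqb⟩
    · exact ⟨hq.le, hqb.trans hb1⟩
    · exact i.elim
  have hS : ∀ b : ℝ, q < b → b < 1 → Sys0 (Measure.infinitePi (fun _ : ι => U)) q b
      (fun i ω => gq b (ω (Sum.inl i))) (fun j ω => gq (q / b) (ω (Sum.inr (Sum.inl j))))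
      (fun i j ω => gq q (ω (Sum.inr (Sum.inr (Sum.inl (i, j)))))) := by
    intro b hqb hb1
    have h1 := geoFam (par q b (q / b) (fun _ : Empty => (0 : ℝ))) (hp b hqb hb1)
    unfold Sys0 Sys
    have h2 : (fam (Ω := ι → ℝ) (κ := Empty) (fun i ω => gq b (ω (Sum.inl i)))
        (fun j ω => gq (q / b) (ω (Sum.inr (Sum.inl j))))
        (fun i j ω => gq q (ω (Sum.inr (Sum.inr (Sum.inl (i, j)))))) (fun _ _ => 0)) =
        fun (i : ι) (ω : ι → ℝ) => gq (par q b (q / b) (fun _ : Empty => (0 : ℝ)) i) (ω i) := by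
      funext i
      rcases i with i | i | i | i
      · rfl
      · rfl
      · rfl
      · exact i.elim
    rw [h2]
    exact h1
  refine ⟨ι → ℝ, inferInstance, Measure.infinitePi (fun _ : ι => U), _, _, _, _, _,
    hS a hqa (lt_of_le_of_lt haa ha'), hS a' (lt_of_lt_of_le hqa haa) ha', fun i ω => ⟨?_, ?_⟩⟩
  · exact gq_mono ha.le haa ha'
  · exact gq_mono (div_pos hq ha'0).le (div_le_div_of_nonneg_left hq.le ha haa)
      ((div_lt_one ha).2 hqa)

end Pool.Agent.W335.LP
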